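import Pool.Agent.N28.BM.Serre

/-!
# The Breuil-Mezard conjecture for `GL_2`: restricted Hodge types, and inequalities

`K / ℚ_p` finite with residue field `k` (`q = p ^ f` elements), `S = Hom(K, E)`,
`r̄ : G_K → GL_2(𝔽)`. We fix an embedding `ι` of `k` into an algebraically closed field `F` of
characteristic `p`; the embedding `σ ∈ S` induces the residue embedding `x ↦ ι(x) ^ (p ^ κ σ)`,
`κ : S → ℤ/f` surjective, and `sec` picks one embedding `sec a ∈ S` above every residue embedding
`a ∈ ℤ/f`. `t : Fˣ → ℂˣ` is an injective homomorphism (Brauer lift).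

* `h : Wt S 2` is a family of pairs of integers; `Dom h`: `h_{σ,1} > h_{σ,2}` for every `σ`
  (`h = λ + (1, 0)` for a Hodge type `λ`).
* `T` is the set of inertial types, `τ₀` the trivial one; `e τ h` (`h` regular) is the
  Hilbert-Samuel multiplicity of `R^{λ,τ}_{r̄} / π`, extended to all `h` as an alternating
  function (`Alt`).
* `s h` is the Weyl character of highest weight `λ` (`IsWeyl`), `D` the Serre weights with their
  Brauer characters, `θ τ` the Brauer character of the reduction of `σ(τ)`, and `mult τ h w` the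
  multiplicity `n_{λ,τ}(w)` of the Serre weight `w` in the reduction of `L_{λ,τ}` (`IsMult`).
* `InPBox κ sec p h`: the `p`-restricted Hodge types. At the embeddings outside of the image of
  `sec` the weights are `(1, 0)`, at the others `1 ≤ h_{σ,1} - h_{σ,2} ≤ p` and
  `0 ≤ h_{σ,2} ≤ p - 1`, and not all of these `h_{σ,2}` are `p - 1`. These are the `h = lift w`, for
  `w` a Serre weight, and the reduction of `L_{λ,1}` is `w` for `h = lift w`.

**Theorem.** (1) Non-negative integers `μ_w` with `e τ h = ∑ mult τ h w μ_w` for all inertial types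
`τ` and all Hodge types `h` exist (Q1 for `r̄`) if and only if every `e τ` satisfies the difference
equations in the Hodge-Tate weights (step `p` at `r` of the weights at one embedding against step
`1` at `r` of the weights at an embedding with Frobenius conjugate residue embedding), and
`e τ (lift w) = ∑_{w'} mult τ (lift w) w' · e τ₀ (lift w')` for all `τ` and `w`.

(2) The `μ_w` are then equal to `e τ₀ (lift w)`.

(3) Suppose that `μ_w ≥ 0` satisfy the inequality `e τ h ≥ ∑ mult τ h w μ_w` for all `τ` and `h`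
(the inequality given by patching). Let `H` be a set of Hodge types such that every Serre weight
occurs in the reduction of `L_{λ,1}` for some `h ∈ H`. If the `e τ` satisfy the difference
equations and the equality holds for all `τ` and all `h ∈ H`, then it holds for all `τ` and all
Hodge types `h`.
-/

namespace Pool.Agent.Results.MP_39033f_nt.RestrictedHodgeTypes

open Pool.Agent.N28.BM

/-- **The Breuil-Mezard conjecture for `GL_2` is equivalent to difference equations in the
Hodge-Tate weights together with explicit identities at the `p`-restricted Hodge types; given the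
inequality and the difference equations, equality for Hodge types containing all Serre weights is
enough.** -/
theorem result {k F : Type} [Field k] [Fintype k] [Field F] [IsAlgClosed F] (ι : k →+* F)
    {p f : ℕ} [Fact p.Prime] [CharP F p] (hk : Fintype.card k = p ^ f) (hf : f ≠ 0)
    {S : Type} [Fintype S] [DecidableEq S] (κ : S → ZMod f)
    (t : Fˣ →* ℂˣ) (ht : Function.Injective t)
    (s : Wt S (1 + 1) → P S (1 + 1)) (hs : IsWeyl s) (D : SerreWeights k F (1 + 1) t)
    {T : Type*} (θ : T → Matrix.GeneralLinearGroup (Fin (1 + 1)) k → ℂ)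
    (mult : T → Wt S (1 + 1) → D.W → ℕ)
    (hmult : ∀ τ, IsMult ι (p := p) κ t s D (θ τ) (mult τ)) (τ₀ : T) (h0 : ∀ g, θ τ₀ g = 1)
    (sec : ZMod f → S) (hsec : ∀ a, κ (sec a) = a)
    (lift : D.W → Wt S (1 + 1)) (hl1 : ∀ w, InPBox κ sec p (lift w))
    (hl2 : ∀ b, InPBox κ sec p b → ∃ w, lift w = b)
    (hl3 : ∀ w, mult τ₀ (lift w) w = 1) (hl4 : ∀ w w', w' ≠ w → mult τ₀ (lift w) w' = 0)
    (e : T → Wt S (1 + 1) → ℤ) (he : ∀ τ, Alt (e τ)) (hpos : ∀ τ h, Dom h → 0 ≤ e τ h) :
    ((∃ μ : D.W → ℕ, ∀ τ h, Dom h → e τ h = ∑ w, (mult τ h w : ℤ) * μ w) ↔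
      (∀ τ h, Dom h → ∀ σ σ', κ σ' = κ σ + 1 → ∀ r, 1 ≤ r → r ≤ 2 →
        shift (e τ) h σ p r = shift (e τ) h σ' 1 r) ∧
      ∀ τ w, e τ (lift w) = ∑ w', (mult τ (lift w) w' : ℤ) * e τ₀ (lift w')) ∧
    (∀ μ : D.W → ℕ, (∀ τ h, Dom h → e τ h = ∑ w, (mult τ h w : ℤ) * μ w) →
      ∀ w, (μ w : ℤ) = e τ₀ (lift w)) ∧
    ∀ μ : D.W → ℕ, (∀ τ h, Dom h → ∑ w, (mult τ h w : ℤ) * μ w ≤ e τ h) →
      ∀ H : Set (Wt S (1 + 1)), (∀ h ∈ H, Dom h) → (∀ w, ∃ h ∈ H, mult τ₀ h w ≠ 0) →
      (∀ τ h, Dom h → ∀ σ σ', κ σ' = κ σ + 1 → ∀ r, 1 ≤ r → r ≤ 2 →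
        shift (e τ) h σ p r = shift (e τ) h σ' 1 r) →
      (∀ τ, ∀ h ∈ H, e τ h = ∑ w, (mult τ h w : ℤ) * μ w) →
      ∀ τ h, Dom h → e τ h = ∑ w, (mult τ h w : ℤ) * μ w :=
  serre ι hk hf κ (fun a => ⟨sec a, hsec a⟩) t ht s hs D θ mult hmult τ₀ h0 sec hsec lift hl1 hl2
    hl3 hl4 e he hpos

end Pool.Agent.Results.MP_39033f_nt.RestrictedHodgeTypes
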